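import Pool.Agent.Helper88.D4.Stmts

/-!
# Project D4 (MP_e1889a_ag): from closed 2-forms to integrable 1-forms
-/

set_option autoImplicit false

namespace Pool.Agent.Helper8.D4

open Module Pool.Agent.Helper37.SD Pool.Agent.Helper20.TS Pool.Agent.Helper88.D4

variable {K : Type} [Field K] [Algebra ℂ K]

theorem form_swap {ω : Form K} (h : ∀ D, ω D D = 0) (D E : Derivation ℂ K K) : ω D E = -ω E D := by
  have h1 := h (D + E)
  rw [map_add, map_add, LinearMap.add_apply, LinearMap.add_apply, h, h] at h1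
  linear_combination h1

theorem smul_left {ω : Form K} (z : ℂ) (D E : Derivation ℂ K K) : ω (z • D) E = z • ω D E := by
  rw [show z • D = (algebraMap ℂ K z) • D from (algebraMap_smul K z D).symm, map_smul,
    LinearMap.smul_apply, algebraMap_smul]

theorem smul_right {ω : Form K} (z : ℂ) (D E : Derivation ℂ K K) : ω D (z • E) = z • ω D E := by
  rw [show z • E = (algebraMap ℂ K z) • E from (algebraMap_smul K z E).symm, map_smul,
    algebraMap_smul]

/-- the weight for the Reeb field -/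
theorem homForm_xi {r : ℕ} {H : Fin r → Derivation ℂ K K} {c : Fin r → ℝ} {ξ : Derivation ℂ K K}
    (hξ : ξ = ∑ i, (c i : ℂ) • H i) {ω : Form K} {χ : Fin r → ℤ}
    (hω : ∀ i, HomForm (H i) (χ i) ω) : HomForm ξ (∑ i, c i * χ i) ω := by
  intro D E
  have h1 : ∀ x : K, ξ x = ∑ i, (c i : ℂ) • H i x := fun x => by
    rw [hξ, der_sum_apply]
    rfl
  have h2 : ∀ D : Derivation ℂ K K, ⁅ξ, D⁆ = ∑ i, (c i : ℂ) • ⁅H i, D⁆ := fun D => by
    rw [hξ, sum_lie]
    exact Finset.sum_congr rfl fun i _ => smul_lie _ _ _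
  have h3 : ω ⁅ξ, D⁆ E = ∑ i, (c i : ℂ) • ω ⁅H i, D⁆ E := by
    rw [h2, map_sum, LinearMap.sum_apply]
    exact Finset.sum_congr rfl fun i _ => smul_left _ _ _
  have h4 : ω D ⁅ξ, E⁆ = ∑ i, (c i : ℂ) • ω D ⁅H i, E⁆ := by
    rw [h2, map_sum]
    exact Finset.sum_congr rfl fun i _ => smul_right _ _ _
  rw [h1, h3, h4, ← Finset.sum_sub_distrib, ← Finset.sum_sub_distrib]
  have h5 : ∀ i, (c i : ℂ) • H i (ω D E) - (c i : ℂ) • ω ⁅H i, D⁆ E - (c i : ℂ) • ω D ⁅H i, E⁆ =
      ((c i * χ i : ℝ) : ℂ) • ω D E := fun i => by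
    rw [← smul_sub, ← smul_sub, hω i D E, smul_smul]
    congr 1
    push_cast
    ring
  rw [Finset.sum_congr rfl fun i _ => h5 i, ← Finset.sum_smul]
  congr 1
  push_cast
  rfl

theorem s_T2 (hPF : S_PF) : S_T2 := by
  intro K _ _ R ξ J a r H c hC hT ω χ hreg hcl hne hω hk hka
  set k : ℝ := ∑ i, c i * χ i with hkdef
  have hξk : HomForm ξ k ω := homForm_xi hT.xi hω
  have hcone : IsCone R ξ := hC.toIsCone
  have hsw := form_swap hreg.alt
  -- Cartan
  have hcar : ∀ B C : Derivation ℂ K K, dOne (ω ξ) B C = (k : ℂ) • ω B C := by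
    intro B C
    have h1 := hcl ξ B C
    have h2 := hξk B C
    have h3 := hsw ⁅ξ, C⁆ B
    have h4 := hsw ⁅B, C⁆ ξ
    unfold dOne
    rw [← h2]
    linear_combination (-1 : K) * h1 + h3 - h4
  have hk0 : (k : ℂ) ≠ 0 := by exact_mod_cast hk
  -- the square is zero
  have hpf : ∀ D, pf ω D = 0 := by
    obtain ⟨q, hqR, hq, hqd⟩ := hPF K R ξ J a hC ω hreg
    have h1 := hqd k hξk
    have hq0 : q = 0 := by
      by_contra h2
      have h3 := hcone.eig_nonneg hqR h2 h1
      linarith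
    intro D
    obtain ⟨x, y, z, w, hx⟩ := hC.alt.ne
    have h2 := hq D ![x, y, z, w]
    rw [hq0, zero_mul] at h2
    have h3 : brk J ![x, y, z, w] ≠ 0 := hx
    exact (mul_eq_zero.1 h2.symm).resolve_left h3
  refine ⟨ω ξ, ?_, ?_, ?_, hreg.alt ξ, ?_⟩
  · intro h0
    apply hne
    refine LinearMap.ext fun B => LinearMap.ext fun C => ?_
    have h1 := hcar B C
    have h2 : dOne (ω ξ) B C = 0 := by
      unfold dOne
      rw [h0]
      simp
    rw [h2] at h1
    exact (smul_eq_zero.1 h1.symm).resolve_left hk0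
  · intro D hD
    exact hreg.reg ξ D hcone.pres hD
  · intro i D
    have h1 := hω i ξ D
    have h2 : ⁅H i, ξ⁆ = 0 := by
      rw [hT.xi, lie_sum]
      refine Finset.sum_eq_zero fun j _ => ?_
      rw [lie_smul, hT.comm, smul_zero]
    rw [h2, map_zero, LinearMap.zero_apply, sub_zero] at h1
    rw [h1]
    norm_cast
  · intro A B C
    have h1 := hpf ![ξ, A, B, C]
    have h2 : ω ξ A * ω B C - ω ξ B * ω A C + ω ξ C * ω A B = 0 := h1
    rw [hcar, hcar, hcar]
    simp only [Algebra.smul_def]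
    linear_combination (algebraMap ℂ K (k : ℂ)) * h2

end Pool.Agent.Helper8.D4
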