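import Pool.Agent.Helper88.D4.Stmts6

/-!
D4, stage 6: (L1) the degree of a regular binary form, from (NM) and (MAJ).
-/

set_option autoImplicit false

namespace Pool.Agent.Helper8.D4

open Module Pool.Agent.Helper37.SD Pool.Agent.Helper20.TS Pool.Agent.Helper88.D4 Polynomial

/-- `X ^ i (l X + 1) ^ (q - i)` -/
noncomputable def gp (q i : ℕ) (l : ℂ) : ℂ[X] := X ^ i * (C l * X + C 1) ^ (q - i)

theorem lin_natDegree (l : ℂ) : (C l * X + C 1 : ℂ[X]).natDegree ≤ 1 := natDegree_linear_le

theorem gp_natDegree (q i : ℕ) (l : ℂ) (hi : i ≤ q) : (gp q i l).natDegree ≤ q := by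
  unfold gp
  refine natDegree_mul_le.trans ?_
  rw [natDegree_X_pow]
  have := natDegree_pow_le_of_le (q - i) (lin_natDegree l)
  omega

theorem gp_coeff (q i : ℕ) (l : ℂ) (hi : i ≤ q) : (gp q i l).coeff q = l ^ (q - i) := by
  unfold gp
  rw [coeff_X_pow_mul', if_pos hi]
  have h := coeff_pow_of_natDegree_le (m := q - i) (lin_natDegree l)
  rw [mul_one] at h
  rw [h, coeff_add, coeff_C_mul, coeff_X_one, coeff_C, if_neg one_ne_zero, mul_one, add_zero]

variable {K : Type} [Field K] [Algebra ℂ K]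

/-- the form `f (X, l X + Y)` -/
noncomputable def fp (f : K[X]) (q : ℕ) (l : ℂ) : K[X] :=
  ∑ i ∈ Finset.range (q + 1), C (f.coeff i) * (gp q i l).map (algebraMap ℂ K)

theorem fp_coeff (f : K[X]) (q : ℕ) (l : ℂ) (k : ℕ) : (fp f q l).coeff k =
    ∑ i ∈ Finset.range (q + 1), f.coeff i * algebraMap ℂ K ((gp q i l).coeff k) := by
  unfold fp
  rw [finsetSum_coeff]
  refine Finset.sum_congr rfl fun i _ => ?_
  rw [coeff_C_mul, coeff_map]

theorem fp_natDegree (f : K[X]) (q : ℕ) (l : ℂ) : (fp f q l).natDegree ≤ q := by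
  unfold fp
  refine natDegree_sum_le_of_forall_le _ _ fun i hi => ?_
  refine (natDegree_C_mul_le _ _).trans ?_
  refine natDegree_map_le.trans (gp_natDegree q i l ?_)
  have := Finset.mem_range.1 hi
  omega

theorem ev_div (g : K[X]) (q : ℕ) (hg : g.natDegree ≤ q) (x y : K) (hy : y ≠ 0) :
    ev g q x y = y ^ q * g.eval (x / y) := by
  unfold ev
  rw [eval_eq_sum_range' (Nat.lt_succ_of_le hg), Finset.mul_sum]
  refine Finset.sum_congr rfl fun i hi => ?_
  have hi' : i ≤ q := by
    have := Finset.mem_range.1 hi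
    omega
  have : y ^ q = y ^ i * y ^ (q - i) := by rw [← pow_add]; congr 1; omega
  rw [this, div_pow]
  field_simp

theorem ev_zero (g : K[X]) (q : ℕ) (x : K) : ev g q x 0 = g.coeff q * x ^ q := by
  unfold ev
  rw [Finset.sum_range_succ, Nat.sub_self, pow_zero, mul_one, Finset.sum_eq_zero, zero_add]
  intro i hi
  have := Finset.mem_range.1 hi
  rw [zero_pow (by omega), mul_zero]

theorem ev_fp (f : K[X]) (q : ℕ) (l : ℂ) (x y : K) :
    ev (fp f q l) q x y = ev f q x (algebraMap ℂ K l * x + y) := by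
  by_cases hy : y = 0
  · subst hy
    rw [ev_zero, fp_coeff]
    unfold ev
    rw [Finset.sum_mul]
    refine Finset.sum_congr rfl fun i hi => ?_
    have hi' : i ≤ q := by
      have := Finset.mem_range.1 hi
      omega
    have : x ^ q = x ^ i * x ^ (q - i) := by rw [← pow_add]; congr 1; omega
    rw [gp_coeff q i l hi', map_pow, this, add_zero, mul_pow]
    ring
  · rw [ev_div _ _ (fp_natDegree f q l) x y hy]
    unfold fp ev
    rw [eval_finset_sum, Finset.mul_sum]
    refine Finset.sum_congr rfl fun i hi => ?_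
    have hi' : i ≤ q := by
      have := Finset.mem_range.1 hi
      omega
    have h1 : y ^ q = y ^ i * y ^ (q - i) := by rw [← pow_add]; congr 1; omega
    have h2 : algebraMap ℂ K l * x + y = y * (algebraMap ℂ K l * (x / y) + 1) := by
      field_simp
    rw [h2, mul_pow]
    unfold gp
    simp only [Polynomial.map_mul, Polynomial.map_pow, Polynomial.map_add, map_C, map_X,
      Polynomial.map_one, map_one, eval_mul, eval_C, eval_pow, eval_X, eval_add, eval_one]
    rw [h1, div_pow]
    have hyi : y ^ i ≠ 0 := pow_ne_zero _ hy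
    generalize (algebraMap ℂ K l * (x / y) + 1) ^ (q - i) = T
    generalize y ^ (q - i) = Z
    field_simp

/-- there is a constant `l` with `f (1, l) ≠ 0` -/
theorem ex_l (f : K[X]) (q : ℕ) (hq : f.natDegree ≤ q) (hf : f ≠ 0) :
    ∃ l : ℂ, ev f q 1 (algebraMap ℂ K l) ≠ 0 := by
  classical
  set h : K[X] := ∑ i ∈ Finset.range (q + 1), C (f.coeff i) * X ^ (q - i) with hh
  have hne : h ≠ 0 := by
    intro h0
    have h1 : h.coeff (q - f.natDegree) = f.coeff f.natDegree := by
      rw [hh, finsetSum_coeff, Finset.sum_eq_single f.natDegree]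
      · rw [coeff_C_mul, coeff_X_pow, if_pos rfl, mul_one]
      · intro i hi hne
        have := Finset.mem_range.1 hi
        rw [coeff_C_mul, coeff_X_pow, if_neg (by omega), mul_zero]
      · intro hn
        exact absurd (Finset.mem_range.2 (by omega)) hn
    rw [h0, coeff_zero] at h1
    exact hf (leadingCoeff_eq_zero.1 h1.symm)
  have hfin : (h.roots.toFinset : Set K).Finite := Finset.finite_toSet _
  have hpre : ((algebraMap ℂ K) ⁻¹' (h.roots.toFinset : Set K)).Finite :=
    hfin.preimage ((algebraMap ℂ K).injective.injOn)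
  obtain ⟨l, hl⟩ := hpre.infinite_compl.nonempty
  refine ⟨l, fun h0 => hl ?_⟩
  rw [Set.mem_preimage, Finset.mem_coe, Multiset.mem_toFinset, mem_roots hne, IsRoot.def, hh,
    eval_finset_sum, ← h0]
  unfold ev
  refine Finset.sum_congr rfl fun i _ => ?_
  simp

theorem s_L1 (hNM : S_NM) (hMAJ : S_MAJ) : S_L1 := by
  intro K _ _ R ξ J v a V H c hcone hmin hQ hT s D P hF f q M hq hf hw hreg
  obtain ⟨l, hl⟩ := ex_l f q hq hf
  set D' : Fin 2 → Derivation ℂ K K := ![D 0 + l • D 1, D 1] with hD'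
  have e0 : D' 0 = D 0 + l • D 1 := rfl
  have e1 : D' 1 = D 1 := rfl
  have hcomb : ∀ x y : K, x • D' 0 + y • D' 1 = x • D 0 + (algebraMap ℂ K l * x + y) • D 1 := by
    intro x y
    rw [e0, e1]
    ext z
    simp only [Derivation.add_apply, Derivation.smul_apply, smul_eq_mul, Algebra.smul_def]
    ring
  have hF' : Fr R ξ s D' P := by
    refine ⟨hF.ne, hF.wt, fun x y hxy => ?_, fun i => ?_, ?_, fun u hu F G hF0 hG0 => ?_⟩
    · rw [hcomb] at hxy
      obtain ⟨h1, h2⟩ := hF.ind _ _ hxy
      subst h1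
      exact ⟨rfl, by simpa using h2⟩
    · fin_cases i
      · show ⁅ξ, D' 0⁆ = 0
        rw [e0, lie_add, lie_smul, hF.com 0, hF.com 1, smul_zero, add_zero]
      · exact hF.com 1
    · obtain ⟨x, y, hxy⟩ := hF.inv
      refine ⟨x, y - algebraMap ℂ K l * x, ?_⟩
      rw [hcomb]
      have h1 : ⁅D' 0, D' 1⁆ = ⁅D 0, D 1⁆ := by
        rw [e0, e1, add_lie, smul_lie, lie_self, smul_zero, add_zero]
      rw [h1, hxy]
      congr 2
      ring
    · have h1 := hF.reg u hu F G hF0 hG0
      have h2 : P * (D' 0 F * D' 1 G - D' 1 F * D' 0 G) =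
          P * (D 0 F * D 1 G - D 1 F * D 0 G) := by
        rw [e0, e1]
        simp only [Derivation.add_apply, Derivation.smul_apply, Algebra.smul_def]
        ring
      rw [h2]
      exact h1
  set f' := fp f q l with hf'
  have hco : f'.coeff q = ev f q 1 (algebraMap ℂ K l) := by
    have h1 := ev_fp f q l 1 0
    rw [ev_zero] at h1
    simpa using h1
  have hcone' : f'.coeff q ≠ 0 := by rw [hco]; exact hl
  have hdeg : f'.natDegree = q :=
    le_antisymm (fp_natDegree f q l) (le_natDegree_of_ne_zero hcone')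
  have hf'0 : f' ≠ 0 := by
    intro h0
    rw [h0, coeff_zero] at hcone'
    exact hcone' rfl
  have hw' : ∀ i, ξ (f'.coeff i) = (M : ℂ) • f'.coeff i := by
    intro i
    rw [hf', fp_coeff, map_sum, Finset.smul_sum]
    refine Finset.sum_congr rfl fun j _ => ?_
    rw [Derivation.leibniz, Derivation.map_algebraMap, smul_zero, zero_add, hw j, smul_eq_mul,
      mul_smul_comm, mul_comm]
  have hreg' : RegF R D' q f' := by
    intro u hu x y hxy
    rw [hcomb] at hxy
    rw [hf', ev_fp]
    exact hreg u hu x _ hxy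
  by_cases hm : ∀ ρ : AlgebraicClosure K,
      2 * (f'.map (algebraMap K (AlgebraicClosure K))).rootMultiplicity ρ ≤ q
  · have h1 := hNM K R ξ s D' P hcone.toIsCone hcone.normal hF' f' q M hdeg hf'0 hw' hreg' hm
    have h2 : (q : ℝ) * min (s / 2) (s - a / 2) ≤ q * (s / 2) :=
      mul_le_mul_of_nonneg_left (min_le_left _ _) (Nat.cast_nonneg q)
    linarith
  · push Not at hm
    obtain ⟨ρ, hρ⟩ := hm
    exact hMAJ K R ξ J v a V H c hcone hmin hQ hT s D' P hF' f' q M hdeg hf'0 hw' hreg' ρ hρ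

end Pool.Agent.Helper8.D4
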