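import Pool.Agent.Helper76.D4.Stmts7
import Pool.Agent.Helper8.D4.LOne

/-!
D4, stage 7: (L1x) the degree of a regular binary form, from (NM) and (MAx).
-/

set_option autoImplicit false

namespace Pool.Agent.Helper8.D4

open Module Pool.Agent.Helper37.SD Pool.Agent.Helper20.TS Pool.Agent.Helper88.D4
open Pool.Agent.Helper76.D4 Polynomial

theorem s_L1x (hNM : S_NM) (hMAx : S_MAx) : S_L1x := by
  intro K _ _ R ξ J v a V H c hcone hmin hT s D P hF f q M hq hf hw hreg
  obtain ⟨l, hl⟩ := ex_l f q hq hf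
  set D' : Fin 2 → Derivation ℂ K K := ![D 0 + l • D 1, D 1] with hD'
  have e0 : D' 0 = D 0 + l • D 1 := rfl
  have e1 : D' 1 = D 1 := rfl
  have hcomb : ∀ x y : K, x • D' 0 + y • D' 1 = x • D 0 + (algebraMap ℂ K l * x + y) • D 1 := by
    intro x y
    rw [e0, e1]
    ext z
    simp only [Derivation.add_apply, Derivation.smul_apply, smul_eq_mul, Algebra.smul_def]
    ring
  have hF' : Fr R ξ s D' P := by
    refine ⟨hF.ne, hF.wt, fun x y hxy => ?_, fun i => ?_, ?_, fun u hu F G hF0 hG0 => ?_⟩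
    · rw [hcomb] at hxy
      obtain ⟨h1, h2⟩ := hF.ind _ _ hxy
      subst h1
      exact ⟨rfl, by simpa using h2⟩
    · fin_cases i
      · show ⁅ξ, D' 0⁆ = 0
        rw [e0, lie_add, lie_smul, hF.com 0, hF.com 1, smul_zero, add_zero]
      · exact hF.com 1
    · obtain ⟨x, y, hxy⟩ := hF.inv
      refine ⟨x, y - algebraMap ℂ K l * x, ?_⟩
      rw [hcomb]
      have h1 : ⁅D' 0, D' 1⁆ = ⁅D 0, D 1⁆ := by
        rw [e0, e1, add_lie, smul_lie, lie_self, smul_zero, add_zero]
      rw [h1, hxy]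
      congr 2
      ring
    · have h1 := hF.reg u hu F G hF0 hG0
      have h2 : P * (D' 0 F * D' 1 G - D' 1 F * D' 0 G) =
          P * (D 0 F * D 1 G - D 1 F * D 0 G) := by
        rw [e0, e1]
        simp only [Derivation.add_apply, Derivation.smul_apply, Algebra.smul_def]
        ring
      rw [h2]
      exact h1
  set f' := fp f q l with hf'
  have hco : f'.coeff q = ev f q 1 (algebraMap ℂ K l) := by
    have h1 := ev_fp f q l 1 0
    rw [ev_zero] at h1
    simpa using h1
  have hcone' : f'.coeff q ≠ 0 := by rw [hco]; exact hl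
  have hdeg : f'.natDegree = q :=
    le_antisymm (fp_natDegree f q l) (le_natDegree_of_ne_zero hcone')
  have hf'0 : f' ≠ 0 := by
    intro h0
    rw [h0, coeff_zero] at hcone'
    exact hcone' rfl
  have hw' : ∀ i, ξ (f'.coeff i) = (M : ℂ) • f'.coeff i := by
    intro i
    rw [hf', fp_coeff, map_sum, Finset.smul_sum]
    refine Finset.sum_congr rfl fun j _ => ?_
    rw [Derivation.leibniz, Derivation.map_algebraMap, smul_zero, zero_add, hw j, smul_eq_mul,
      mul_smul_comm, mul_comm]
  have hreg' : RegF R D' q f' := by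
    intro u hu x y hxy
    rw [hcomb] at hxy
    rw [hf', ev_fp]
    exact hreg u hu x _ hxy
  by_cases hm : ∀ ρ : AlgebraicClosure K,
      2 * (f'.map (algebraMap K (AlgebraicClosure K))).rootMultiplicity ρ ≤ q
  · have h1 := hNM K R ξ s D' P hcone.toIsCone hcone.normal hF' f' q M hdeg hf'0 hw' hreg' hm
    have h2 : (q : ℝ) * min (s / 2) (s - a / 2) ≤ q * (s / 2) :=
      mul_le_mul_of_nonneg_left (min_le_left _ _) (Nat.cast_nonneg q)
    linarith
  · push Not at hm
    obtain ⟨ρ, hρ⟩ := hm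
    exact hMAx K R ξ J v a V H c hcone hmin hT s D' P hF' f' q M hdeg hf'0 hw' hreg' ρ hρ

end Pool.Agent.Helper8.D4
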