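import Pool.Agent.Helper88.D4.Stmts6

/-!
D4, stage 6: (CON) the content of a product.
-/

set_option autoImplicit false

namespace Pool.Agent.Helper8.D4

open Pool.Agent.Helper88.D4 Polynomial

/-- a pair is a multiple of a primitive one -/
theorem prim {L : Type} [Field L] (V : ValuationSubring L) (a b : L) (h : a ≠ 0 ∨ b ≠ 0) :
    ∃ (e : L) (a' b' : V), a = e * a' ∧ b = e * b' ∧ (a' = 1 ∨ b' = 1) := by
  by_cases ha : a = 0
  · have hb : b ≠ 0 := by tauto
    exact ⟨b, 0, 1, by simp [ha], by simp, Or.inr rfl⟩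
  by_cases hb : b = 0
  · exact ⟨a, 1, 0, by simp, by simp [hb], Or.inl rfl⟩
  rcases V.mem_or_inv_mem (b / a) with h1 | h1
  · refine ⟨a, 1, ⟨b / a, h1⟩, by simp, ?_, Or.inl rfl⟩
    field_simp
  · refine ⟨b, ⟨(b / a)⁻¹, h1⟩, 1, ?_, by simp, Or.inr rfl⟩
    simp only [inv_div]
    field_simp

theorem s_CON : S_CON := by
  classical
  intro L _ V q a b c σ h
  by_cases h0 : ∀ j, a j ≠ 0 ∨ b j ≠ 0
  · choose e a' b' ha hb hp using fun j => prim V (a j) (b j) (h0 j)
    set p : Fin q → V[X] := fun j => C (a' j) * X + C (b' j) with hpd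
    set Q : V[X] := ∏ j, p j with hQ
    have hres : Q.map (IsLocalRing.residue V) ≠ 0 := by
      rw [hQ, Polynomial.map_prod, Finset.prod_ne_zero_iff]
      intro j _ hz
      have c0 : ((p j).map (IsLocalRing.residue V)).coeff 0 = 0 := by rw [hz]; simp
      have c1 : ((p j).map (IsLocalRing.residue V)).coeff 1 = 0 := by rw [hz]; simp
      simp only [hpd, coeff_map, coeff_add, coeff_C_mul, coeff_X_zero, mul_zero, coeff_C_zero,
        zero_add, coeff_X_one, mul_one] at c0 c1
      rcases hp j with h1 | h1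
      · rw [h1] at c1
        simp at c1
      · rw [h1] at c0
        simp at c0
    obtain ⟨i, hi⟩ : ∃ i, (Q.map (IsLocalRing.residue V)).coeff i ≠ 0 := by
      by_contra hc
      push Not at hc
      exact hres (Polynomial.ext hc)
    rw [coeff_map] at hi
    have hu : IsUnit (Q.coeff i) := by
      by_contra hn
      exact hi ((IsLocalRing.residue_eq_zero_iff _).2 ((IsLocalRing.mem_maximalIdeal _).2 hn))
    obtain ⟨u, hu⟩ := hu
    have hprod : C c * ∏ j, (C (a j) * X + C (b j)) = C (c * ∏ j, e j) *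
        Q.map (algebraMap V L) := by
      have h1 : ∀ j, C (a j) * X + C (b j) = C (e j) * (p j).map (algebraMap V L) := by
        intro j
        simp only [hpd, Polynomial.map_add, Polynomial.map_mul, map_C, map_X]
        rw [ha j, hb j]
        simp only [C_mul]
        have : ∀ z : V, algebraMap V L z = (z : L) := fun _ => rfl
        simp only [this]
        ring
      rw [Finset.prod_congr rfl fun j _ => h1 j, Finset.prod_mul_distrib, hQ, Polynomial.map_prod,
        C_mul, map_prod]
      ring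
    have hd : c * ∏ j, e j ∈ V := by
      have h1 := h i
      rw [hprod, coeff_C_mul, coeff_map] at h1
      have h2 : (Q.coeff i : L) * ((u⁻¹ : Vˣ) : V) = 1 := by
        rw [← hu, ← MulMemClass.coe_mul]
        simp
      have h3 : c * ∏ j, e j = (c * ∏ j, e j) * (Q.coeff i : L) * ((u⁻¹ : Vˣ) : V) := by
        rw [mul_assoc, h2, mul_one]
      rw [h3]
      exact V.mul_mem _ _ h1 ((u⁻¹ : Vˣ) : V).2
    have e1 : c ^ 2 * ∏ i, (a i * b (σ i) - b i * a (σ i)) =
        (c * ∏ j, e j) ^ 2 * ∏ i, ((a' i : L) * b' (σ i) - b' i * a' (σ i)) := by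
      have h1 : ∀ i, a i * b (σ i) - b i * a (σ i) =
          e i * (e (σ i) * ((a' i : L) * b' (σ i) - b' i * a' (σ i))) := by
        intro i
        rw [ha i, hb i, ha (σ i), hb (σ i)]
        ring
      rw [Finset.prod_congr rfl fun i _ => h1 i, Finset.prod_mul_distrib, Finset.prod_mul_distrib,
        Equiv.prod_comp σ e]
      ring
    rw [e1]
    refine V.mul_mem _ _ (V.pow_mem hd 2) (prod_mem fun i _ => ?_)
    exact V.sub_mem (V.mul_mem _ _ (a' i).2 (b' (σ i)).2) (V.mul_mem _ _ (b' i).2 (a' (σ i)).2)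
  · push Not at h0
    obtain ⟨j, hj1, hj2⟩ := h0
    rw [Finset.prod_eq_zero (Finset.mem_univ j) (by rw [hj1, hj2]; ring), mul_zero]
    exact V.zero_mem

end Pool.Agent.Helper8.D4
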