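import Pool.Agent.Helper20.D4.RDefs
import Pool.Agent.Helper37.SD.Wt

/-! Project D4, piece R2 (`S_GV`): Gauss valuations. -/

set_option autoImplicit false
set_option linter.unusedSectionVars false

namespace Pool.Agent.Helper8.D4

open Module Pool.Agent.Helper37.SD Pool.Agent.Helper20.TS Pool.Agent.Helper88.D4
open Pool.Agent.Helper20.D4

section lau

variable {K K' : Type} [Field K] [Algebra ℂ K] [Field K'] [Algebra ℂ K'] [Algebra K K'] {p : ℕ}

/-- `lau` as an additive homomorphism -/
noncomputable def lauHom (t : Fin p → K') : ((Fin p → ℤ) →₀ K) →+ K' :=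
  Finsupp.liftAddHom fun n =>
    (AddMonoidHom.mulRight (mon t n)).comp (algebraMap K K').toAddMonoidHom

theorem lauHom_apply (t : Fin p → K') (f : (Fin p → ℤ) →₀ K) : lauHom t f = lau t f := rfl

theorem lau_single (t : Fin p → K') (n : Fin p → ℤ) (x : K) :
    lau t (Finsupp.single n x) = algebraMap K K' x * mon t n := by
  unfold lau
  rw [Finsupp.sum_single_index]
  rw [map_zero, zero_mul]

theorem mon_zero (t : Fin p → K') : mon t 0 = 1 := by
  simp [mon]

theorem mon_add {t : Fin p → K'} (ht : ∀ i, t i ≠ 0) (a b : Fin p → ℤ) :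
    mon t (a + b) = mon t a * mon t b := by
  unfold mon
  rw [← Finset.prod_mul_distrib]
  exact Finset.prod_congr rfl fun i _ => zpow_add₀ (ht i) _ _

/-- the product of Laurent polynomials -/
noncomputable def mulF (f g : (Fin p → ℤ) →₀ K) : (Fin p → ℤ) →₀ K :=
  f.sum fun a x => g.sum fun b y => Finsupp.single (a + b) (x * y)

theorem lau_mulF {t : Fin p → K'} (ht : ∀ i, t i ≠ 0) (f g : (Fin p → ℤ) →₀ K) :
    lau t (mulF f g) = lau t f * lau t g := by
  rw [← lauHom_apply, mulF, map_finsuppSum]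
  have h1 : ∀ a x, lauHom t (g.sum fun b y => Finsupp.single (a + b) (x * y)) =
      algebraMap K K' x * mon t a * lau t g := by
    intro a x
    rw [map_finsuppSum]
    unfold lau Finsupp.sum
    rw [Finset.mul_sum]
    refine Finset.sum_congr rfl fun b _ => ?_
    beta_reduce
    rw [lauHom_apply, lau_single, map_mul, mon_add ht]
    ring
  simp only [h1]
  unfold Finsupp.sum
  rw [← Finset.sum_mul]
  rfl

theorem mulF_apply (f g : (Fin p → ℤ) →₀ K) (n : Fin p → ℤ) :
    mulF f g n = ∑ q ∈ f.support ×ˢ g.support, if q.1 + q.2 = n then f q.1 * g q.2 else 0 := by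
  classical
  unfold mulF Finsupp.sum
  rw [Finset.sum_product, Finsupp.finsetSum_apply]
  refine Finset.sum_congr rfl fun a _ => ?_
  rw [Finsupp.finsetSum_apply]
  refine Finset.sum_congr rfl fun b _ => ?_
  rw [Finsupp.single_apply]

/-- Laurent polynomials are determined by their values -/
theorem lau_eq_zero {t : Fin p → K'} (ht : AlgebraicIndependent K t) (f : (Fin p → ℤ) →₀ K)
    (h : lau t f = 0) : f = 0 := by
  classical
  have ht0 : ∀ i, t i ≠ 0 := fun i => ht.ne_zero i
  by_contra hf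
  obtain ⟨n0, hn0⟩ : ∃ n, f n ≠ 0 := by
    by_contra hcon
    push Not at hcon
    exact hf (Finsupp.ext hcon)
  set N : ℕ := ∑ n ∈ f.support, ∑ i, (n i).natAbs with hN
  have hNn : ∀ n ∈ f.support, ∀ i, 0 ≤ n i + N := by
    intro n hn i
    have h1 : (n i).natAbs ≤ ∑ j, (n j).natAbs :=
      Finset.single_le_sum (f := fun j => (n j).natAbs) (fun _ _ => Nat.zero_le _)
        (Finset.mem_univ i)
    have h2 : ∑ j, (n j).natAbs ≤ N :=
      Finset.single_le_sum (f := fun n : Fin p → ℤ => ∑ j, (n j).natAbs)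
        (fun _ _ => Nat.zero_le _) hn
    have h3 : -((n i).natAbs : ℤ) ≤ n i := by omega
    have h4 : ((n i).natAbs : ℤ) ≤ N := by exact_mod_cast h1.trans h2
    linarith
  let F : (Fin p → ℤ) → (Fin p →₀ ℕ) := fun n =>
    Finsupp.equivFunOnFinite.symm fun i => (n i + N).toNat
  have hF : ∀ n ∈ f.support, ∀ m ∈ f.support, F n = F m → n = m := by
    intro n hn m hm hnm
    funext i
    have h1 := DFunLike.congr_fun hnm i
    simp only [F, Finsupp.equivFunOnFinite_symm_apply_apply] at h1
    have h2 := hNn n hn i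
    have h3 := hNn m hm i
    omega
  set P : MvPolynomial (Fin p) K := ∑ n ∈ f.support, MvPolynomial.monomial (F n) (f n) with hP
  have h1 : MvPolynomial.aeval t P = 0 := by
    have h2 : ∀ n ∈ f.support, MvPolynomial.aeval t (MvPolynomial.monomial (F n) (f n)) =
        algebraMap K K' (f n) * mon t n * mon t (fun _ => (N : ℤ)) := by
      intro n hn
      rw [MvPolynomial.aeval_monomial, mul_assoc, ← mon_add ht0]
      congr 1
      unfold mon
      rw [Finsupp.prod_fintype _ _ (fun i => pow_zero _)]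
      refine Finset.prod_congr rfl fun i _ => ?_
      simp only [F, Finsupp.equivFunOnFinite_symm_apply_apply, Pi.add_apply]
      rw [← zpow_natCast, Int.toNat_of_nonneg (hNn n hn i)]
    rw [hP, map_sum, Finset.sum_congr rfl h2, ← Finset.sum_mul]
    have h3 : ∑ n ∈ f.support, algebraMap K K' (f n) * mon t n = lau t f := rfl
    rw [h3, h, zero_mul]
  have h2 : P = 0 := by
    have h3 := (algebraicIndependent_iff.1 ht) P h1
    exact h3
  have h3 : MvPolynomial.coeff (F n0) P = f n0 := by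
    rw [hP, MvPolynomial.coeff_sum, Finset.sum_eq_single n0]
    · rw [MvPolynomial.coeff_monomial, if_pos rfl]
    · intro m hm hmn
      rw [MvPolynomial.coeff_monomial, if_neg]
      intro h4
      exact hmn (hF m hm n0 (Finsupp.mem_support_iff.2 hn0) h4)
    · intro h4
      rw [MvPolynomial.coeff_monomial, if_pos rfl]
      exact Finsupp.notMem_support_iff.1 h4
  rw [h2, MvPolynomial.coeff_zero] at h3
  exact hn0 h3.symm

theorem lau_inj {t : Fin p → K'} (ht : AlgebraicIndependent K t) {f g : (Fin p → ℤ) →₀ K}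
    (h : lau t f = lau t g) : f = g := by
  rw [← sub_eq_zero]
  apply lau_eq_zero ht
  rw [← lauHom_apply, map_sub, sub_eq_zero]
  exact h

end lau

section wt

variable {K : Type} [Field K] [Algebra ℂ K] {p : ℕ} (u : RVal K) (e : Fin p → ℝ)

/-- the weight of an exponent -/
def sw (n : Fin p → ℤ) : ℝ := ∑ i, n i * e i

theorem sw_add (a b : Fin p → ℤ) : sw e (a + b) = sw e a + sw e b := by
  unfold sw
  rw [← Finset.sum_add_distrib]
  refine Finset.sum_congr rfl fun i _ => ?_
  rw [Pi.add_apply]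
  push_cast
  ring

open Classical in
/-- the Gauss valuation of a Laurent polynomial -/
noncomputable def wt (f : (Fin p → ℤ) →₀ K) : ℝ :=
  if h : f.support.Nonempty then f.support.inf' h fun n => u.val (f n) + sw e n else 0

theorem wt_iff {f : (Fin p → ℤ) →₀ K} (hf : f ≠ 0) (c : ℝ) :
    c ≤ wt u e f ↔ ∀ n, u.Ge (c - sw e n) (f n) := by
  have h : f.support.Nonempty := Finsupp.support_nonempty_iff.2 hf
  unfold wt
  rw [dif_pos h, Finset.le_inf'_iff]
  constructor
  · intro h1 n
    by_cases hn : f n = 0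
    · exact Or.inl hn
    · right
      have h2 := h1 n (Finsupp.mem_support_iff.2 hn)
      linarith
  · intro h1 n hn
    have h2 := (h1 n).resolve_left (Finsupp.mem_support_iff.1 hn)
    linarith

theorem wt_le {f : (Fin p → ℤ) →₀ K} {n : Fin p → ℤ} (hn : f n ≠ 0) :
    wt u e f ≤ u.val (f n) + sw e n := by
  have hf : f ≠ 0 := by
    rintro rfl
    exact hn rfl
  have h1 := (wt_iff u e hf (wt u e f)).1 le_rfl n
  have h2 := h1.resolve_left hn
  linarith

theorem exists_wt {f : (Fin p → ℤ) →₀ K} (hf : f ≠ 0) :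
    ∃ n, f n ≠ 0 ∧ u.val (f n) + sw e n = wt u e f := by
  have h : f.support.Nonempty := Finsupp.support_nonempty_iff.2 hf
  obtain ⟨n, hn, h1⟩ := Finset.exists_mem_eq_inf' h fun n => u.val (f n) + sw e n
  refine ⟨n, Finsupp.mem_support_iff.1 hn, ?_⟩
  unfold wt
  rw [dif_pos h, h1]

theorem gt_sum {ι : Type} {c : ℝ} (s : Finset ι) (x : ι → K) (h : ∀ i ∈ s, u.Gt c (x i)) :
    u.Gt c (∑ i ∈ s, x i) := by
  classical
  induction s using Finset.induction_on with
  | empty => exact Or.inl rfl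
  | insert a s ha ih =>
    rw [Finset.sum_insert ha]
    exact u.gt_add (h a (Finset.mem_insert_self a s))
      (ih fun i hi => h i (Finset.mem_insert_of_mem hi))

theorem wt_mulF {f g : (Fin p → ℤ) →₀ K} (hf : f ≠ 0) (hg : g ≠ 0) :
    mulF f g ≠ 0 ∧ wt u e (mulF f g) = wt u e f + wt u e g := by
  classical
  set α := wt u e f with hα
  set β := wt u e g with hβ
  set A := f.support.filter fun n => u.val (f n) + sw e n = α with hA
  set B := g.support.filter fun n => u.val (g n) + sw e n = β with hB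
  have hAn : A.Nonempty := by
    obtain ⟨n, hn, h⟩ := exists_wt u e hf
    exact ⟨n, Finset.mem_filter.2 ⟨Finsupp.mem_support_iff.2 hn, h⟩⟩
  have hBn : B.Nonempty := by
    obtain ⟨n, hn, h⟩ := exists_wt u e hg
    exact ⟨n, Finset.mem_filter.2 ⟨Finsupp.mem_support_iff.2 hn, h⟩⟩
  obtain ⟨a0, ha0, b0, hb0, huniq⟩ := UniqueSums.uniqueAdd_of_nonempty hAn hBn
  obtain ⟨ha1, ha2⟩ := Finset.mem_filter.1 ha0
  obtain ⟨hb1, hb2⟩ := Finset.mem_filter.1 hb0
  have hfa : f a0 ≠ 0 := Finsupp.mem_support_iff.1 ha1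
  have hgb : g b0 ≠ 0 := Finsupp.mem_support_iff.1 hb1
  have hval : u.val (f a0 * g b0) = α + β - sw e (a0 + b0) := by
    rw [u.map_mul _ _ hfa hgb, sw_add]
    linarith
  have hcoef : mulF f g (a0 + b0) = f a0 * g b0 +
      ∑ q ∈ (f.support ×ˢ g.support).erase (a0, b0),
        if q.1 + q.2 = a0 + b0 then f q.1 * g q.2 else 0 := by
    have hmem : (a0, b0) ∈ f.support ×ˢ g.support := Finset.mem_product.2 ⟨ha1, hb1⟩
    rw [mulF_apply, ← Finset.add_sum_erase _ _ hmem]
    rw [if_pos rfl]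
  have hrest : u.Gt (u.val (f a0 * g b0)) (∑ q ∈ (f.support ×ˢ g.support).erase (a0, b0),
        if q.1 + q.2 = a0 + b0 then f q.1 * g q.2 else 0) := by
    refine gt_sum u _ _ fun q hq => ?_
    obtain ⟨hq1, hq2⟩ := Finset.mem_erase.1 hq
    obtain ⟨hq3, hq4⟩ := Finset.mem_product.1 hq2
    have hfq : f q.1 ≠ 0 := Finsupp.mem_support_iff.1 hq3
    have hgq : g q.2 ≠ 0 := Finsupp.mem_support_iff.1 hq4
    by_cases hs : q.1 + q.2 = a0 + b0
    · rw [if_pos hs]
      right
      rw [hval, u.map_mul _ _ hfq hgq, ← hs, sw_add]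
      have h1 := wt_le u e hfq
      have h2 := wt_le u e hgq
      by_cases hqA : q.1 ∈ A
      · by_cases hqB : q.2 ∈ B
        · exact absurd (Prod.ext (huniq hqA hqB hs).1 (huniq hqA hqB hs).2) hq1
        · have h3 : u.val (g q.2) + sw e q.2 ≠ β := fun h =>
            hqB (Finset.mem_filter.2 ⟨hq4, h⟩)
          have h4 : β < u.val (g q.2) + sw e q.2 := lt_of_le_of_ne h2 (Ne.symm h3)
          linarith
      · have h3 : u.val (f q.1) + sw e q.1 ≠ α := fun h =>
          hqA (Finset.mem_filter.2 ⟨hq3, h⟩)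
        have h4 : α < u.val (f q.1) + sw e q.1 := lt_of_le_of_ne h1 (Ne.symm h3)
        linarith
    · rw [if_neg hs]
      exact Or.inl rfl
  obtain ⟨hne, hv⟩ := u.val_add_eq (mul_ne_zero hfa hgb) hrest
  rw [← hcoef] at hne hv
  have hmne : mulF f g ≠ 0 := by
    intro h
    rw [h] at hne
    exact hne rfl
  refine ⟨hmne, le_antisymm ?_ ?_⟩
  · have h1 := wt_le u e hne
    rw [hv, hval] at h1
    linarith
  · rw [wt_iff u e hmne]
    intro n
    rw [mulF_apply]
    refine u.ge_sum _ _ fun q hq => ?_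
    obtain ⟨hq3, hq4⟩ := Finset.mem_product.1 hq
    have hfq : f q.1 ≠ 0 := Finsupp.mem_support_iff.1 hq3
    have hgq : g q.2 ≠ 0 := Finsupp.mem_support_iff.1 hq4
    by_cases hs : q.1 + q.2 = n
    · rw [if_pos hs]
      right
      rw [u.map_mul _ _ hfq hgq, ← hs, sw_add]
      have h1 := wt_le u e hfq
      have h2 := wt_le u e hgq
      linarith
    · rw [if_neg hs]
      exact Or.inl rfl

theorem wt_add {f g : (Fin p → ℤ) →₀ K} (hf : f ≠ 0) (hg : g ≠ 0) (hfg : f + g ≠ 0) :
    min (wt u e f) (wt u e g) ≤ wt u e (f + g) := by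
  rw [wt_iff u e hfg]
  intro n
  rw [Finsupp.add_apply]
  exact u.ge_add ((wt_iff u e hf _).1 (min_le_left _ _) n)
    ((wt_iff u e hg _).1 (min_le_right _ _) n)

theorem wt_single (x : K) (hx : x ≠ 0) :
    wt u e (Finsupp.single (0 : Fin p → ℤ) x) = u.val x := by
  have h0 : Finsupp.single (0 : Fin p → ℤ) x ≠ 0 := by
    rw [Ne, Finsupp.single_eq_zero]
    exact hx
  obtain ⟨n, hn, h⟩ := exists_wt u e h0
  have h1 : n = 0 := by
    by_contra h2
    rw [Finsupp.single_apply, if_neg (fun h3 => h2 h3.symm)] at hn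
    exact hn rfl
  subst h1
  rw [← h, Finsupp.single_apply, if_pos rfl]
  simp [sw]

end wt

/-- R2: Gauss valuations -/
theorem s_GV : S_GV := by
  classical
  intro K K' _ _ _ _ _ p t hE u e
  have hind := hE.ind
  have ht0 : ∀ i, t i ≠ 0 := fun i => hind.ne_zero i
  let R' : Subalgebra ℂ K' :=
    { carrier := {x | ∃ f : (Fin p → ℤ) →₀ K, lau t f = x}
      mul_mem' := by
        rintro _ _ ⟨f, rfl⟩ ⟨g, rfl⟩
        exact ⟨mulF f g, lau_mulF ht0 f g⟩
      add_mem' := by
        rintro _ _ ⟨f, rfl⟩ ⟨g, rfl⟩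
        exact ⟨f + g, by rw [← lauHom_apply, map_add, lauHom_apply, lauHom_apply]⟩
      algebraMap_mem' := by
        intro z
        refine ⟨Finsupp.single 0 (algebraMap ℂ K z), ?_⟩
        rw [lau_single, mon_zero, mul_one, hE.tower] }
  have hX : ∀ i, t i ∈ R' := by
    intro i
    refine ⟨Finsupp.single (Pi.single i 1) 1, ?_⟩
    rw [lau_single, map_one, one_mul]
    unfold mon
    rw [Finset.prod_eq_single i]
    · simp
    · intro j _ hj
      rw [Pi.single_eq_of_ne hj, zpow_zero]
    · intro h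
      exact absurd (Finset.mem_univ i) h
  have hK : ∀ x : K, algebraMap K K' x ∈ R' := by
    intro x
    refine ⟨Finsupp.single 0 x, ?_⟩
    rw [lau_single, mon_zero, mul_one]
  have hP : ∀ P : MvPolynomial (Fin p) K, MvPolynomial.aeval t P ∈ R' := by
    intro P
    induction P using MvPolynomial.induction_on with
    | C a => rw [MvPolynomial.aeval_C]; exact hK a
    | add P Q hP hQ => rw [map_add]; exact R'.add_mem hP hQ
    | mul_X P i hP => rw [map_mul, MvPolynomial.aeval_X]; exact R'.mul_mem hP (hX i)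
  have hfrac : IsFrac R' := by
    intro x
    obtain ⟨P, Q, hQ, h⟩ := hE.frac x
    have hQ0 : MvPolynomial.aeval t Q ≠ 0 := by
      intro h1
      exact hQ ((algebraicIndependent_iff.1 hind) Q h1)
    exact ⟨_, hP P, _, hP Q, hQ0, by rw [← h, mul_div_cancel_right₀ _ hQ0]⟩
  let V : K' → ℝ := fun x => if h : ∃ f : (Fin p → ℤ) →₀ K, lau t f = x then wt u e h.choose else 0
  have hV : ∀ f : (Fin p → ℤ) →₀ K, V (lau t f) = wt u e f := by
    intro f
    have h : ∃ g : (Fin p → ℤ) →₀ K, lau t g = lau t f := ⟨f, rfl⟩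
    simp only [V, dif_pos h]
    rw [lau_inj hind h.choose_spec]
  have hne : ∀ {f : (Fin p → ℤ) →₀ K}, lau t f ≠ 0 → f ≠ 0 := by
    rintro f h rfl
    apply h
    rw [← lauHom_apply, map_zero]
  obtain ⟨v, hv⟩ := exists_extend hfrac V (by
    rintro _ ⟨f, rfl⟩ _ ⟨g, rfl⟩ hx hy
    rw [← lau_mulF ht0, hV, hV, hV]
    exact (wt_mulF u e (hne hx) (hne hy)).2) (by
    rintro _ ⟨f, rfl⟩ _ ⟨g, rfl⟩ hx hy hxy
    have h1 : lau t f + lau t g = lau t (f + g) := by
      rw [← lauHom_apply, ← lauHom_apply, ← map_add, lauHom_apply]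
    rw [h1] at hxy ⊢
    rw [hV, hV, hV]
    exact wt_add u e (hne hx) (hne hy) (hne hxy)) (by
    intro z hz
    have h1 : algebraMap ℂ K' z = lau t (Finsupp.single 0 (algebraMap ℂ K z)) := by
      rw [lau_single, mon_zero, mul_one, hE.tower]
    rw [h1, hV, wt_single u e _ ((map_ne_zero _).2 hz), u.map_const z hz])
  refine ⟨v, fun f c => ?_⟩
  by_cases hf : f = 0
  · subst hf
    constructor
    · intro _ n
      exact Or.inl rfl
    · intro _
      left
      rw [← lauHom_apply, map_zero]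
  · have hl : lau t f ≠ 0 := fun h => hf (lau_eq_zero hind f h)
    have h1 : v.val (lau t f) = wt u e f := by
      rw [hv _ ⟨f, rfl⟩ hl, hV]
    constructor
    · intro h
      have h2 := h.resolve_left hl
      rw [h1] at h2
      exact (wt_iff u e hf c).1 h2
    · intro h
      right
      rw [h1]
      exact (wt_iff u e hf c).2 h

end Pool.Agent.Helper8.D4
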