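import Pool.Agent.Helper88.D4.Stmts6

/-!
D4, stage 6: (PRM) a permutation which moves all classes.
-/

set_option autoImplicit false

namespace Pool.Agent.Helper8.D4

open Pool.Agent.Helper88.D4

theorem s_PRM : S_PRM := by
  classical
  intro q L ρ h
  have hall := (Finset.all_card_le_biUnion_card_iff_exists_injective
    (fun i : Fin q => Finset.univ.filter fun j => ρ j ≠ ρ i)).1 (by
      intro s
      rcases s.eq_empty_or_nonempty with rfl | ⟨i0, hi0⟩
      · simp
      by_cases hs : ∀ i ∈ s, ρ i = ρ i0
      · have h1 := h (ρ i0) s hs
        have h2 := h (ρ i0) (Finset.univ.filter fun j => ρ j = ρ i0) (by simp)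
        have h3 : (Finset.univ.filter fun j => ρ j = ρ i0).card +
            (Finset.univ.filter fun j => ¬ ρ j = ρ i0).card = q := by
          rw [Finset.card_filter_add_card_filter_not]
          simp
        have h4 : (Finset.univ.filter fun j => ¬ ρ j = ρ i0).card ≤
            (s.biUnion fun i => Finset.univ.filter fun j => ρ j ≠ ρ i).card := by
          refine Finset.card_le_card fun j hj => ?_
          rw [Finset.mem_biUnion]
          exact ⟨i0, hi0, by simpa using hj⟩
        omega
      · push Not at hs
        obtain ⟨i1, hi1, hne⟩ := hs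
        have h4 : (s.biUnion fun i => Finset.univ.filter fun j => ρ j ≠ ρ i) = Finset.univ := by
          ext j
          simp only [Finset.mem_biUnion, Finset.mem_filter, Finset.mem_univ, true_and, iff_true]
          by_cases hj : ρ j = ρ i0
          · exact ⟨i1, hi1, by rw [hj]; exact fun h => hne h.symm⟩
          · exact ⟨i0, hi0, hj⟩
        rw [h4]
        exact Finset.card_le_univ s)
  obtain ⟨f, hf, hf2⟩ := hall
  refine ⟨Equiv.ofBijective f (Finite.injective_iff_bijective.1 hf), fun i => ?_⟩
  have := hf2 i
  simpa using this

end Pool.Agent.Helper8.D4
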